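import Pool.Agent.Q123.CU.Pow

/-!
# Density thresholds forcing unbounded representation counts: sets clustered on several scales

`rep A n` is the number of ordered pairs of elements of `A` with sum `n`, `cnt A x` the number of elements of `A` less
than `x`, and `Covered F L N` means that `F` is covered by `N` intervals `[s, s + L)` (`s` an integer).

1. Let a finite nonempty subset `F` of an abelian group be covered by `N_i` translates of finite sets `W_i`, `i < m`.  If
   `|F| ≥ 2 · 4 ^ i N_i ∏_{k < i} |W_k - W_k|` for all `i < m`, then `F` contains a proper cube of dimension `m`, with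
   `i`-th difference in `W_i - W_i`, and some element has at least `2 ^ m` ordered representations as a sum of two
   elements of `F`.
2. So if `A ∩ [0, x)` is covered by at most `A(x) L ^ (-δ)` intervals of length `L` for each of the `m` scales
   `L = R ^ (q ^ i)`, `i < m`, where `q ≥ 1 + 2 / δ` and `R ^ δ ≥ 64`, then `r_A(n) ≥ 2 ^ m` for some `n < 2 x`.  In other
   words: if `r_A < 2 ^ m`, then `A ∩ [0, x)` is spread out (needs more than `A(x) L ^ (-δ)` intervals) on one of any `m`
   such scales.
3. If, for some `δ > 0` and for all `η > 0`, for arbitrarily large `x` the set `A ∩ [0, x)` is not empty and is covered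
   by at most `A(x) L ^ (-δ)` intervals of length `L` for all `L` with `x ^ η ≤ L ≤ x`, then `r_A` is unbounded.

Proof of 1: by induction `F_i ⊆ F` is the set of all `a` such that `a +` all subset sums of `d_0, …, d_(i-1)` is in `F`;
two elements of `F_i` in the same translate of `W_i` have a difference in `W_i - W_i`, by the inequality of Cauchy and
Schwarz there are at least `4 ^ i |F_i|` such pairs whose difference is not a difference of two subset sums, and `d_i` is
the most popular of these differences.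
-/

set_option autoImplicit false

namespace Pool.Agent.Results.MP_491344_nt.ClusteredScales

open Finset Filter Q123.ET Q123.CU
open scoped Pointwise

theorem result :
    -- 1. clustered sets in abelian groups contain cubes
    (∀ (G : Type) [AddCommGroup G] [DecidableEq G] (F : Finset G) (m : ℕ) (W : ℕ → Finset G) (N : ℕ → ℕ),
      F.Nonempty → (∀ i < m, CovBy F (W i) (N i)) →
      (∀ i < m, 2 * 4 ^ i * N i * ∏ k ∈ range i, #(W k - W k) ≤ #F) →
      (∃ (a : G) (d : ℕ → G), (∀ i < m, d i ∈ W i - W i) ∧ (∀ S ⊆ range m, a + ∑ i ∈ S, d i ∈ F) ∧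
        ∀ S ⊆ range m, ∀ T ⊆ range m, ∑ i ∈ S, d i = ∑ i ∈ T, d i → S = T) ∧
      ∃ s : G, 2 ^ m ≤ #{p ∈ F ×ˢ F | p.1 + p.2 = s}) ∧
    -- 2. clustering on `m` scales
    (∀ (A : Set ℕ) (δ : ℝ) (q R m x : ℕ), 0 < δ → 1 + 2 / δ ≤ q → 64 ≤ (R : ℝ) ^ δ → 1 ≤ cnt A x →
      (∀ i < m, Clu A δ x (R ^ q ^ i)) → ∃ n < 2 * x, 2 ^ m ≤ rep A n) ∧
    -- 3. sets clustered on all scales `x ^ η ≤ L ≤ x`
    (∀ (A : Set ℕ) (δ : ℝ), 0 < δ → (∀ η : ℝ, 0 < η → ∀ X : ℕ, ∃ x ≥ X, 1 ≤ cnt A x ∧
      ∀ L : ℕ, (x : ℝ) ^ η ≤ L → L ≤ x → Clu A δ x L) → ∀ r : ℕ, ∃ n, r < rep A n) := by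
  refine ⟨?_, ?_, fun A δ hδ h r => unbounded_of_clu hδ h r⟩
  · intro G _ _ F m W N hF hc h
    refine ⟨?_, many hF m W N hc h⟩
    obtain ⟨d, F', ⟨a, ha⟩, -, hd, hcube, hinj⟩ := cube hF m W N hc h
    exact ⟨a, d, hd, hcube a ha, hinj⟩
  · intro A δ q R m x hδ hq hR hx h
    exact rep_of_clu hx hδ hq hR m h

end Pool.Agent.Results.MP_491344_nt.ClusteredScales
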