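import Pool.Agent.Q208.CF.Thresh

/-!
# Density thresholds forcing unbounded representation counts: sets built from context-free sets

A set of natural numbers is called `b`-context-free if the base-`b` expansions of its elements form
a context-free language. In the class of the finite unions of context-free sets (every set in its
own base) the functions `g` which force unbounded representations are determined: they are those
for which `√N / g(N)` is not bounded by a power of `log N`. The same functions force unbounded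
representations in the class of the sets recognised by finite automata in base two.
-/

set_option autoImplicit false

open Set Filter

namespace Pool.Agent.Results.MP_491344_nt.ContextFreeThresholds

open Pool.Agent.Q208.CF

/-- the number of ordered representations of `n` as a sum of two elements of `A` -/
noncomputable def rep (A : Set ℕ) (n : ℕ) : ℕ :=
  Set.ncard {p : ℕ × ℕ | p.1 ∈ A ∧ p.2 ∈ A ∧ p.1 + p.2 = n}

/-- `|A ∩ {1, …, N}|` -/
noncomputable def count (A : Set ℕ) (N : ℕ) : ℕ := (A ∩ Set.Icc 1 N).ncard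

/-- `|A ∩ {1, …, N}| ≫ √N / g(N)` -/
def Dense (g : ℕ → ℝ) (A : Set ℕ) : Prop :=
  ∃ C : ℝ, 0 < C ∧ ∀ᶠ N : ℕ in atTop, Real.sqrt N / g N ≤ C * count A N

/-- the representation function of `A` is unbounded -/
def Unbounded (A : Set ℕ) : Prop := ∀ M : ℕ, ∃ n : ℕ, M ≤ rep A n

/-- `A` is the union of sets `B_1, …, B_k` such that the base-`b_i` expansions of the elements of
`B_i` form a context-free language -/
def IsContextFreeUnion (A : Set ℕ) : Prop :=
  ∃ (k : ℕ) (b : Fin k → ℕ) (B : Fin k → Set ℕ),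
    (∀ i, 2 ≤ b i ∧ Language.IsContextFree (T := ℕ) (Nat.digits (b i) '' B i)) ∧ A = ⋃ i, B i

/-- a finite automaton reading base-two expansions decides membership in `A` -/
def IsTwoAutomatic (A : Set ℕ) : Prop :=
  ∃ (σ : Type) (_ : Fintype σ) (M : DFA ℕ σ), ∀ n, Nat.digits 2 n ∈ M.accepts ↔ n ∈ A

/-- `√N / g(N)` is not bounded by a power of `log N` -/
def Fast (g : ℕ → ℝ) : Prop :=
  ∀ (E : ℕ) (C : ℝ), ∃ᶠ N : ℕ in atTop, C * Real.log N ^ E < Real.sqrt N / g N

theorem IsTwoAutomatic.union {A : Set ℕ} (h : IsTwoAutomatic A) : IsContextFreeUnion A := by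
  obtain ⟨σ, hσ, M, hM⟩ := h
  refine ⟨1, fun _ => 2, fun _ => A, fun _ => ⟨le_rfl, isContextFree_of_dfa le_rfl M A hM⟩, ?_⟩
  ext n
  simp

theorem large {g : ℕ → ℝ} (hg : Fast g) {A : Set ℕ} (hA : IsContextFreeUnion A) (hd : Dense g A) :
    ∃ K : ℕ, ∀ M : ℕ, ∃ n : ℕ, M ≤ n ∧ n ≤ rep A n ^ K := by
  obtain ⟨k, b, B, hB, rfl⟩ := hA
  have hsub : ∀ i, B i ⊆ ⋃ i, B i := fun i => subset_iUnion B i
  by_cases hp : ∃ i, Th.Power (B i)
  · obtain ⟨i, hi⟩ := hp
    exact Th.Power.mono (hsub i) hi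
  exfalso
  push Not at hp
  have hthin : ∀ i, ∃ E : ℕ, ∀ N : ℕ, 2 ≤ N → (Th.count (B i) N : ℝ) ≤ (6 * Real.log N) ^ E :=
    fun i => (Th.dichotomy (hB i).1 (hB i).2).resolve_right (hp i)
  choose E hE using hthin
  obtain ⟨D, hD⟩ : ∃ D, D = ∑ i, E i := ⟨_, rfl⟩
  have hED : ∀ i, E i ≤ D := fun i => by
    rw [hD]
    exact Finset.single_le_sum (f := E) (fun _ _ => Nat.zero_le _) (Finset.mem_univ i)
  obtain ⟨C, hC, hev⟩ := hd
  have h1 : ∀ N : ℕ, 2 ≤ N → (count (⋃ i, B i) N : ℝ) ≤ k * (6 * Real.log N) ^ D := by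
    intro N hN
    have hl : 1 ≤ 6 * Real.log N := by
      have := Th.log_le hN
      have h0 : (0 : ℝ) ≤ Nat.log 2 N := Nat.cast_nonneg _
      linarith
    have h2 : count (⋃ i, B i) N ≤ ∑ i, Th.count (B i) N := by
      unfold count Th.count
      rw [iUnion_inter]
      exact Set.ncard_iUnion_le_of_fintype _
    have h3 : (count (⋃ i, B i) N : ℝ) ≤ ∑ i, (Th.count (B i) N : ℝ) := by exact_mod_cast h2
    refine h3.trans ((Finset.sum_le_sum fun i _ => (hE i N hN).trans
      (pow_le_pow_right₀ hl (hED i))).trans ?_)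
    rw [Finset.sum_const, Finset.card_univ, Fintype.card_fin, nsmul_eq_mul]
  have h2 := hg D (C * (k * 6 ^ D))
  obtain ⟨N, hN, hN1, hN2⟩ := (h2.and_eventually (hev.and (eventually_ge_atTop 2))).exists
  have h3 := mul_le_mul_of_nonneg_left (h1 N hN2) hC.le
  have h4 : C * (k * 6 ^ D) * Real.log N ^ D = C * (k * (6 * Real.log N) ^ D) := by
    rw [mul_pow]
    ring
  rw [h4] at hN
  exact absurd (hN1.trans h3) (not_le.2 hN)

theorem unbounded_of_large {A : Set ℕ} (h : ∃ K : ℕ, ∀ M : ℕ, ∃ n : ℕ, M ≤ n ∧ n ≤ rep A n ^ K) :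
    Unbounded A := fun M => Th.Power.unbounded (A := A) h M

theorem slow {g : ℕ → ℝ} (hg : ¬ Fast g) :
    ∃ A : Set ℕ, IsTwoAutomatic A ∧ Dense g A ∧ ∃ M : ℕ, ∀ n, rep A n ≤ M := by
  unfold Fast at hg
  push Not at hg
  obtain ⟨E, C, hC⟩ := hg
  obtain ⟨C', hC', hcnt⟩ := Th.PP_count (k := E + 1) (by omega)
  refine ⟨Q123.CU.PP (E + 1), Th.PP_automatic _, ⟨(|C| + 1) * C', by positivity, ?_⟩, ?_⟩
  · filter_upwards [hC, hcnt, eventually_ge_atTop 3] with N h1 h2 h3
    have hl : 1 ≤ Real.log N := by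
      rw [Real.le_log_iff_exp_le (by positivity)]
      have h4 := Real.exp_one_lt_d9
      have h5 : (3 : ℝ) ≤ N := by exact_mod_cast h3
      linarith
    have hl0 : 0 ≤ Real.log N := by linarith
    have h4 : Real.log N ^ E ≤ Real.log N ^ (E + 1) := pow_le_pow_right₀ hl (by omega)
    have h5 : C ≤ |C| + 1 := by
      have := le_abs_self C
      linarith
    calc Real.sqrt N / g N ≤ C * Real.log N ^ E := h1
      _ ≤ (|C| + 1) * Real.log N ^ E := mul_le_mul_of_nonneg_right h5 (by positivity)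
      _ ≤ (|C| + 1) * Real.log N ^ (E + 1) := mul_le_mul_of_nonneg_left h4 (by positivity)
      _ ≤ (|C| + 1) * (C' * count (Q123.CU.PP (E + 1)) N) :=
        mul_le_mul_of_nonneg_left h2 (by positivity)
      _ = _ := by ring
  · obtain ⟨M, hM⟩ := Q123.CU.rep_PP (E + 1)
    refine ⟨M, fun n => ?_⟩
    have h1 : rep (Q123.CU.PP (E + 1)) n = Q123.ET.rep (Q123.CU.PP (E + 1)) n := Th.rep_eq _ n
    rw [h1]
    exact hM n

theorem not_unbounded {A : Set ℕ} (h : ∃ M : ℕ, ∀ n, rep A n ≤ M) : ¬ Unbounded A := by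
  obtain ⟨M, hM⟩ := h
  intro hu
  obtain ⟨n, hn⟩ := hu (M + 1)
  have := hM n
  omega

/-- A function `g` forces unbounded representations in the class of the finite unions of
context-free sets if and only if it does so in the class of the base-two automatic sets, if and
only if `√N / g(N)` is not bounded by a power of `log N`; and then the representation functions
are at least a power of `n` for infinitely many `n`. -/
theorem result (g : ℕ → ℝ) :
    ((∀ A : Set ℕ, IsContextFreeUnion A → Dense g A → Unbounded A) ↔ Fast g) ∧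
    ((∀ A : Set ℕ, IsTwoAutomatic A → Dense g A → Unbounded A) ↔ Fast g) ∧
    (Fast g → ∀ A : Set ℕ, IsContextFreeUnion A → Dense g A →
      ∃ K : ℕ, ∀ M : ℕ, ∃ n : ℕ, M ≤ n ∧ n ≤ rep A n ^ K) := by
  have h1 : (∀ A : Set ℕ, IsTwoAutomatic A → Dense g A → Unbounded A) → Fast g := by
    intro h
    by_contra hg
    obtain ⟨A, hA, hd, hb⟩ := slow hg
    exact not_unbounded hb (h A hA hd)
  have h2 : Fast g → ∀ A : Set ℕ, IsContextFreeUnion A → Dense g A → Unbounded A :=
    fun hg A hA hd => unbounded_of_large (large hg hA hd)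
  refine ⟨⟨fun h => h1 fun A hA => h A hA.union, h2⟩, ⟨h1, fun hg A hA => h2 hg A hA.union⟩,
    fun hg A hA hd => large hg hA hd⟩

end Pool.Agent.Results.MP_491344_nt.ContextFreeThresholds
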