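import Pool.Agent.Q167.DT.Unif

/-!
# The exact density threshold after random displacements of pieces

Cut the natural numbers into pieces `[P s, P (s + 1))` of length comparable to `ℓ (P s)` and move
all the elements of `A` in the `s`-th piece by the same random amount `x s ≤ w (P s)`, where the
`x s` are independent and uniformly distributed; the pieces themselves stay rigid.  Here
`1 ≤ ℓ ≤ w` are nondecreasing, regular, and `w (n) = n ^ o(1)`; `ℓ = 1` is the case of independent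
displacements of the single elements.

`g` forces unbounded representations after these displacements if almost surely the new set has an
unbounded representation function, for all sets `A` with `|A ∩ [1, n]| ≫ √n / g (n)` for
infinitely many `n` (so also for those with `|A ∩ [1, n]| ≫ √n / g (n)` for all large `n`).

1. `g` forces unbounded representations after the displacements if and only if
   `g (n) ^ 2 ℓ (n) / w (n) → 0`.
2. If this fails, there is a set `A` with `|A ∩ [1, n]| ≫ √n / g (n)` for infinitely many `n` such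
   that for ALL displacements the representation function is bounded by `6`.
3. So some `g → ∞` has this property if and only if `w (n) / ℓ (n) → ∞`.
4. The positive part holds for all independent displacements which take all the values
   `0, 1, ..., w (P s)` with probability at least `β / (w (P s) + 1)`.
-/

set_option autoImplicit false

open MeasureTheory ProbabilityTheory Filter Topology

namespace Pool.Agent.Results.MP_491344_nt.DisplacementThreshold

/-- `rep A n` is the number of ordered pairs of elements of `A` with sum `n`. -/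
noncomputable def rep (A : Set ℕ) (n : ℕ) : ℕ :=
  {p : ℕ × ℕ | p.1 ∈ A ∧ p.2 ∈ A ∧ p.1 + p.2 = n}.ncard

/-- `|A ∩ [1, n]| ≫ √n / g (n)` for infinitely many `n` -/
def Thick (g : ℕ → ℝ) (A : Set ℕ) : Prop :=
  ∃ C : ℝ, 0 < C ∧ ∃ᶠ n : ℕ in atTop, Real.sqrt n / g n ≤ C * ((A ∩ Set.Icc 1 n).ncard : ℝ)

/-- `|A ∩ [1, n]| ≫ √n / g (n)`, the condition of the problem -/
def Dense (g : ℕ → ℝ) (A : Set ℕ) : Prop :=
  ∃ C : ℝ, 0 < C ∧ ∀ᶠ n : ℕ in atTop, Real.sqrt n / g n ≤ C * ((A ∩ Set.Icc 1 n).ncard : ℝ)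

/-- The elements `a` of `A` with `P s ≤ a < P (s + 1)` are moved to `a + x s`, for all `s`. -/
def moved (A : Set ℕ) (P x : ℕ → ℕ) : Set ℕ :=
  {v | ∃ s, ∃ a ∈ A, P s ≤ a ∧ a < P (s + 1) ∧ v = a + x s}

/-- The representation function of `B` is unbounded. -/
def Unbounded (B : Set ℕ) : Prop := ∀ K, ∃ v, K ≤ rep B v

/-- The pieces `[P s, P (s + 1))` cover the natural numbers and have lengths comparable to
`ℓ (P s)`. -/
def Pieces (P ℓ : ℕ → ℕ) : Prop :=
  StrictMono P ∧ P 0 = 0 ∧ (∀ s, P (s + 1) ≤ P s + ℓ (P s)) ∧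
    ∃ κ : ℝ, 0 < κ ∧ ∀ s, κ * ℓ (P s) ≤ (P (s + 1) : ℝ) - P s

/-- `1 ≤ ℓ ≤ w` are nondecreasing and regular, and `w (n) = n ^ o(1)`. -/
def Regular (ℓ w : ℕ → ℕ) : Prop :=
  Monotone ℓ ∧ Monotone w ∧ (∀ n, 1 ≤ ℓ n) ∧ (∀ n, ℓ n ≤ w n) ∧
    (∃ C : ℝ, ∀ᶠ n : ℕ in atTop, (ℓ (2 * n) : ℝ) ≤ C * ℓ n) ∧
    (∃ C : ℝ, C < 2 ∧ ∀ᶠ n : ℕ in atTop, (w (2 * n) : ℝ) ≤ C * w n) ∧
    ∀ B : ℕ, ∀ᶠ n : ℕ in atTop, w n ^ B ≤ n

/-- The product of the uniform probability measures on `{0, …, w n}`. -/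
noncomputable def unif (w : ℕ → ℕ) : Measure (∀ n, Fin (w n + 1)) :=
  Measure.infinitePi fun n => (PMF.uniformOfFintype (Fin (w n + 1))).toMeasure

/-- After independent and uniformly distributed displacements `x s ≤ w (P s)` of the pieces, all
sets `A` with `|A ∩ [1, n]| ≫ √n / g (n)` for infinitely many `n` have almost surely an unbounded
representation function. -/
def Forces (P w : ℕ → ℕ) (g : ℕ → ℝ) : Prop :=
  ∀ A : Set ℕ, Thick g A →
    ∀ᵐ x ∂(unif fun s => w (P s)), Unbounded (moved A P fun s => (x s : ℕ))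

theorem result (P ℓ w : ℕ → ℕ) (hP : Pieces P ℓ) (hw : Regular ℓ w) :
    -- the exact threshold
    (∀ g : ℕ → ℝ, (∀ n, 0 < g n) →
      (Forces P w g ↔ Tendsto (fun n => g n ^ 2 * ℓ n / w n) atTop (𝓝 0))) ∧
    -- the negative part holds for all displacements
    (∀ g : ℕ → ℝ, (∀ n, 0 < g n) → ¬ Tendsto (fun n => g n ^ 2 * ℓ n / w n) atTop (𝓝 0) →
      ∃ A : Set ℕ, Thick g A ∧
        ∀ x : ℕ → ℕ, (∀ s, x s ≤ w (P s)) → ∀ v, rep (moved A P x) v ≤ 6) ∧
    -- thresholds which tend to infinity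
    ((∃ g : ℕ → ℝ, (∀ n, 0 < g n) ∧ Tendsto g atTop atTop ∧ Forces P w g) ↔
      Tendsto (fun n => (w n : ℝ) / ℓ n) atTop atTop) ∧
    -- the positive part for general independent displacements
    (∀ g : ℕ → ℝ, (∀ n, 0 < g n) → Tendsto (fun n => g n ^ 2 * ℓ n / w n) atTop (𝓝 0) →
      ∀ A : Set ℕ, Thick g A ∨ Dense g A →
      ∀ (Ω : Type) (_ : MeasurableSpace Ω) (μ : Measure Ω) (_ : IsProbabilityMeasure μ)
        (ε : ℕ → Ω → ℕ) (β : ℝ), iIndepFun ε μ → (∀ s, Measurable (ε s)) → 0 < β →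
        (∀ s j, j ≤ w (P s) → β / (w (P s) + 1) ≤ μ.real {ω | ε s ω = j}) →
        ∀ᵐ ω ∂μ, Unbounded (moved A P fun s => ε s ω)) := by
  obtain ⟨hP1, hP2, hP3, κ, hκ, hP4⟩ := hP
  obtain ⟨hℓm, hwm, hℓ1, hℓw, hregℓ, hregw, hslow⟩ := hw
  have hpos : ∀ g : ℕ → ℝ, (∀ n, 0 < g n) →
      Tendsto (fun n => g n ^ 2 * ℓ n / w n) atTop (𝓝 0) → Forces P w g := by
    intro g hg hlim A hA
    have : IsProbabilityMeasure (unif fun s => w (P s)) := by
      unfold unif
      infer_instance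
    exact Pool.Agent.Q167.DT.unbounded_ae (μ := Pool.Agent.Q167.DT.unif fun s => w (P s))
      hP1 hP2 hP3 hℓm hwm hℓ1 hℓw hregw hslow hg hlim hA
      (Pool.Agent.Q167.DT.unif_indep _) (Pool.Agent.Q167.DT.unif_meas _) one_pos
      (fun s j hj => Pool.Agent.Q167.DT.unif_le (fun s => w (P s)) s j hj)
  have hneg : ∀ g : ℕ → ℝ, (∀ n, 0 < g n) →
      ¬ Tendsto (fun n => g n ^ 2 * ℓ n / w n) atTop (𝓝 0) →
      ∃ A : Set ℕ, Thick g A ∧
        ∀ x : ℕ → ℕ, (∀ s, x s ≤ w (P s)) → ∀ v, rep (moved A P x) v ≤ 6 := by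
    intro g hg hlim
    exact Pool.Agent.Q167.DT.bounded_exists hP1 hP2 hP3 hκ hP4 hℓm hwm hℓ1 hℓw hregℓ hslow hg hlim
  have hiff : ∀ g : ℕ → ℝ, (∀ n, 0 < g n) →
      (Forces P w g ↔ Tendsto (fun n => g n ^ 2 * ℓ n / w n) atTop (𝓝 0)) := by
    intro g hg
    refine ⟨?_, hpos g hg⟩
    intro hF
    by_contra hlim
    obtain ⟨A, hA, hx⟩ := hneg g hg hlim
    have h1 := hF A hA
    have : IsProbabilityMeasure (unif fun s => w (P s)) := by
      unfold unif
      infer_instance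
    obtain ⟨x, hxU⟩ := h1.exists
    obtain ⟨v, hv⟩ := hxU 7
    have := hx (fun s => (x s : ℕ)) (fun s => Nat.lt_succ_iff.1 (x s).2) v
    omega
  refine ⟨hiff, hneg, ?_, ?_⟩
  · rw [← Pool.Agent.Q167.DT.exists_threshold_iff hℓ1 hℓw]
    constructor
    · rintro ⟨g, hg, hgt, hF⟩
      exact ⟨g, hg, hgt, (hiff g hg).1 hF⟩
    · rintro ⟨g, hg, hgt, hlim⟩
      exact ⟨g, hg, hgt, (hiff g hg).2 hlim⟩
  · intro g hg hlim A hA Ω _ μ _ ε β h1 h2 h3 h4
    have hA' : Thick g A := by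
      rcases hA with hA | ⟨C, hC, hA⟩
      · exact hA
      · exact ⟨C, hC, hA.frequently⟩
    exact Pool.Agent.Q167.DT.unbounded_ae hP1 hP2 hP3 hℓm hwm hℓ1 hℓw hregw hslow hg hlim hA'
      h1 h2 h3 h4

end Pool.Agent.Results.MP_491344_nt.DisplacementThreshold
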