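import Pool.Agent.Q208.HT.Dens
import Pool.Agent.Q208.HT.Pos

/-!
# Density thresholds forcing unbounded representation counts: homogeneous sets

A set `A` of natural numbers is homogeneous if for all `1 ≤ L ≤ x` its part below `x` is covered by
at most `B` times as many intervals of length `L` as `A` has elements below `B x / L`. In the class
of the homogeneous sets the functions `g` which force unbounded representations are exactly those
with `√N / g(N) > exp ((log N) ^ κ)` for arbitrarily large `N`, for every `κ < 1`. Moreover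
`2 ^ m` representations are forced by `log |A ∩ [1, N]| ≥ K (log N) ^ (1 - 1 / m)`, `K` depending
only on the set, and there are homogeneous sets with `log |A ∩ [1, N]| ≥ c (log N) ^ (1 - 1 / m)` for all large `N` and at
most `2 ^ (m + 2)` representations.
-/

set_option autoImplicit false

open Set Filter Topology

namespace Pool.Agent.Results.MP_491344_nt.HomogeneousThreshold

open Pool.Agent.Q208.HT

/-- the number of ordered representations of `n` as a sum of two elements of `A` -/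
noncomputable def rep (A : Set ℕ) (n : ℕ) : ℕ :=
  Set.ncard {p : ℕ × ℕ | p.1 ∈ A ∧ p.2 ∈ A ∧ p.1 + p.2 = n}

/-- `|A ∩ {1, …, N}|` -/
noncomputable def count (A : Set ℕ) (N : ℕ) : ℕ := (A ∩ Set.Icc 1 N).ncard

/-- `|A ∩ {1, …, N}| ≫ √N / g(N)` -/
def Dense (g : ℕ → ℝ) (A : Set ℕ) : Prop :=
  ∃ C : ℝ, 0 < C ∧ ∀ᶠ N : ℕ in atTop, Real.sqrt N / g N ≤ C * count A N

/-- the representation function of `A` is unbounded -/
def Unbounded (A : Set ℕ) : Prop := ∀ M : ℕ, ∃ n : ℕ, M ≤ rep A n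

/-- `F` is covered by at most `n` intervals `[s, s + L)` -/
def CoveredBy (F : Set ℕ) (L n : ℕ) : Prop :=
  ∃ t : Finset ℤ, t.card ≤ n ∧ ∀ a ∈ F, ∃ s ∈ t, s ≤ (a : ℤ) ∧ (a : ℤ) < s + L

/-- for some `B` and all `1 ≤ L ≤ x` the set `A ∩ [0, x)` is covered by at most
`B |A ∩ [0, B ⌊x / L⌋)|` intervals of length `L` -/
def Homogeneous (A : Set ℕ) : Prop :=
  ∃ B : ℕ, ∀ x L : ℕ, 1 ≤ L → L ≤ x →
    CoveredBy (A ∩ Set.Iio x) L (B * (A ∩ Set.Iio (B * (x / L))).ncard)

/-- for every `κ < 1`: `√N / g(N) > exp ((log N) ^ κ)` for arbitrarily large `N` -/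
def Fast (g : ℕ → ℝ) : Prop :=
  ∀ κ : ℝ, κ < 1 → ∃ᶠ N : ℕ in atTop, Real.exp (Real.log N ^ κ) < Real.sqrt N / g N

theorem cnt_eq (A : Set ℕ) (x : ℕ) : Q123.ET.cnt A x = (A ∩ Set.Iio x).ncard := by
  classical
  unfold Q123.ET.cnt
  rw [← Set.ncard_coe_finset]
  congr 1
  ext a
  simp only [Finset.coe_filter, Finset.mem_range, Set.mem_ofPred_eq, Set.mem_inter_iff, Set.mem_Iio]
  tauto

theorem hom_iff (A : Set ℕ) : Homogeneous A ↔ Q123.ET.Homogeneous A := by
  unfold Homogeneous Q123.ET.Homogeneous CoveredBy Q123.ET.Covered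
  simp only [cnt_eq]

theorem rep_eq (A : Set ℕ) (n : ℕ) : rep A n = Q123.ET.rep A n := by
  classical
  unfold rep Q123.ET.rep
  rw [← Set.ncard_coe_finset]
  congr 1
  ext p
  simp only [Set.mem_ofPred_eq, Finset.coe_filter, Finset.HasAntidiagonal.mem_antidiagonal]
  tauto

/-- many representations in dense homogeneous sets -/
theorem many {A : Set ℕ} (hA : Homogeneous A) : ∃ K : ℝ, 0 < K ∧
    ∀ m : ℕ, 1 ≤ m → ∀ N : ℕ, 2 ≤ N →
      K * Real.log N ^ (1 - 1 / (m : ℝ)) ≤ Real.log (count A N) →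
      ∃ n ≤ 4 * N, 2 ^ m ≤ rep A n := by
  rw [hom_iff] at hA
  obtain ⟨B, hB⟩ := hA
  obtain ⟨C, hC⟩ : ∃ C : ℝ, C = 7 + 2 * (B : ℝ) := ⟨_, rfl⟩
  have hC0 : 0 < C := by rw [hC]; positivity
  refine ⟨4 * C, by positivity, fun m hm N hN h => ?_⟩
  obtain ⟨M, rfl⟩ : ∃ M, m = M + 1 := ⟨m - 1, by omega⟩
  have hl2 : 0 < Real.log 2 := Real.log_pos (by norm_num)
  have hl2' : Real.log 2 ≤ 1 := by
    have := Real.log_two_lt_d9
    linarith
  have hlN : 0 < Real.log N := Real.log_pos (by exact_mod_cast hN)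
  have hlN2 : Real.log 2 ≤ Real.log N := Real.log_le_log (by norm_num) (by exact_mod_cast hN)
  obtain ⟨n, hn⟩ : ∃ n, n = Nat.log 2 N + 1 := ⟨_, rfl⟩
  have hn1 : N < 2 ^ n := by
    rw [hn]
    exact Nat.lt_pow_succ_log_self (by norm_num) N
  have hn2 : 2 ^ n ≤ 2 * N := by
    rw [hn, pow_succ]
    have := Nat.pow_log_le_self 2 (show N ≠ 0 by omega)
    omega
  have hn3 : (n : ℝ) ≤ 2 * Real.log N / Real.log 2 := by
    rw [le_div_iff₀ hl2]
    have h1 : (2 : ℝ) ^ n ≤ 2 * N := by exact_mod_cast hn2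
    have h2 : (n : ℝ) * Real.log 2 ≤ Real.log (2 * N) := by
      rw [← Real.log_pow]
      exact Real.log_le_log (by positivity) h1
    rw [Real.log_mul (by norm_num) (by positivity)] at h2
    linarith
  have hcnt : count A N ≤ Q123.ET.cnt A (2 ^ n) := by
    rw [cnt_eq]
    refine Set.ncard_le_ncard ?_ ((Set.finite_Iio _).inter_of_right _)
    rintro a ⟨h1, h2⟩
    exact ⟨h1, lt_of_le_of_lt h2.2 hn1⟩
  have hKpos : 0 < 4 * C * Real.log N ^ (1 - 1 / ((M + 1 : ℕ) : ℝ)) := by positivity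
  have hlc : 0 < Real.log (count A N) := lt_of_lt_of_le hKpos h
  have hc0 : (0 : ℝ) < count A N := by
    rcases Nat.eq_zero_or_pos (count A N) with h0 | h0
    · rw [h0] at hlc
      simp at hlc
    · exact_mod_cast h0
  have hcc : Real.log (count A N) ≤ Real.log (Q123.ET.cnt A (2 ^ n)) :=
    Real.log_le_log hc0 (by exact_mod_cast hcnt)
  obtain ⟨a, ha⟩ : ∃ a : ℝ, a = Real.logb 2 (Q123.ET.cnt A (2 ^ n)) := ⟨_, rfl⟩
  have ha1 : 4 * C / Real.log 2 * Real.log N ^ (1 - 1 / ((M + 1 : ℕ) : ℝ)) ≤ a := by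
    rw [ha, Real.logb, div_mul_eq_mul_div]
    exact div_le_div_of_nonneg_right (h.trans hcc) hl2.le
  have ha0 : 0 < a := lt_of_lt_of_le (by positivity) ha1
  have ha2 : (4 * C / Real.log 2) ^ (M + 1) * Real.log N ^ M ≤ a ^ (M + 1) := by
    refine le_trans (le_of_eq ?_) (pow_le_pow_left₀ (by positivity) ha1 (M + 1))
    rw [mul_pow]
    congr 1
    rw [← Real.rpow_natCast, ← Real.rpow_natCast (Real.log N ^ (1 - 1 / ((M + 1 : ℕ) : ℝ))),
      ← Real.rpow_mul hlN.le]
    congr 1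
    push_cast
    have : (M : ℝ) + 1 ≠ 0 := by positivity
    field_simp
    ring
  have ha3 : (2 * C) ^ (M + 1) * (n : ℝ) ^ M ≤ a ^ (M + 1) := by
    refine le_trans ?_ ha2
    have e1 : (n : ℝ) ^ M ≤ (2 * Real.log N / Real.log 2) ^ M :=
      pow_le_pow_left₀ (Nat.cast_nonneg _) hn3 M
    have e2 : (2 * Real.log N / Real.log 2) ^ M = (2 / Real.log 2) ^ M * Real.log N ^ M := by
      rw [← mul_pow]
      congr 1
      ring
    have e3 : (1 : ℝ) ≤ 2 / Real.log 2 := by
      rw [le_div_iff₀ hl2]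
      linarith
    have e4 : (2 / Real.log 2) ^ M ≤ (2 / Real.log 2) ^ (M + 1) := pow_le_pow_right₀ e3 (by omega)
    calc (2 * C) ^ (M + 1) * (n : ℝ) ^ M
        ≤ (2 * C) ^ (M + 1) * ((2 / Real.log 2) ^ (M + 1) * Real.log N ^ M) := by
          refine mul_le_mul_of_nonneg_left ?_ (by positivity)
          rw [e2] at e1
          exact e1.trans (mul_le_mul_of_nonneg_right e4 (by positivity))
      _ = (4 * C / Real.log 2) ^ (M + 1) * Real.log N ^ M := by
          rw [← mul_assoc, ← mul_pow]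
          congr 2
          ring
  obtain ⟨k, hk1, hk2⟩ := pos_core hB M B (Nat.lt_two_pow_self).le C (le_of_eq hC.symm) n
    (by omega) (by rw [← ha]; exact ha0) (by rw [← ha]; exact ha3)
  refine ⟨k, by omega, ?_⟩
  rw [rep_eq]
  exact hk2

theorem zero_notMem {m : ℕ} (hm : 1 ≤ m) : 0 ∉ AA m := by
  rintro ⟨n, x, hx, h⟩
  have h1 := (aa_size hm hx).1
  have h2 : 0 < bb m ^ n := by
    unfold bb
    positivity
  omega

/-- homogeneous sets with few representations -/
theorem few {m : ℕ} (hm : 2 ≤ m) : ∃ A : Set ℕ, Homogeneous A ∧ (∀ n, rep A n ≤ 2 ^ (m + 2)) ∧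
    ∃ c : ℝ, 0 < c ∧ ∀ᶠ N : ℕ in atTop,
      c * Real.log N ^ (1 - 1 / (m : ℝ)) ≤ Real.log (count A N) := by
  obtain ⟨c, hc, hd⟩ := dens hm
  refine ⟨AA m, (hom_iff _).2 (hom (by omega)), fun n => ?_, c, hc, ?_⟩
  · rw [rep_eq]
    exact rep_le (by omega) n
  · filter_upwards [hd, Real.tendsto_log_atTop.comp tendsto_natCast_atTop_atTop |>.eventually_gt_atTop 0]
      with N hN hN2
    refine hN.trans ?_
    have h1 : Q123.ET.cnt (AA m) N ≤ count (AA m) N := by
      rw [cnt_eq]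
      refine Set.ncard_le_ncard ?_ ((Set.finite_Icc _ _).inter_of_right _)
      rintro a ⟨h1, h2⟩
      refine ⟨h1, ?_, le_of_lt h2⟩
      by_contra hcon
      have : a = 0 := by omega
      rw [this] at h1
      exact zero_notMem (by omega) h1
    have h2 : 0 < Q123.ET.cnt (AA m) N := by
      rcases Nat.eq_zero_or_pos (Q123.ET.cnt (AA m) N) with h0 | h0
      · exfalso
        rw [h0] at hN
        have h3 : 0 < c * Real.log N ^ (1 - 1 / (m : ℝ)) := by
          have : 0 < Real.log N := hN2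
          positivity
        simp only [Nat.cast_zero, Real.log_zero] at hN
        linarith
      · exact h0
    exact Real.log_le_log (by exact_mod_cast h2) (by exact_mod_cast h1)

theorem tend (κ κ' K : ℝ) (h : κ' < κ) (hκ : 0 < κ) :
    ∀ᶠ N : ℕ in atTop, K * Real.log N ^ κ' + K ≤ Real.log N ^ κ := by
  have hlog : Tendsto (fun N : ℕ => Real.log N) atTop atTop :=
    Real.tendsto_log_atTop.comp tendsto_natCast_atTop_atTop
  have h1 : Tendsto (fun N : ℕ => Real.log N ^ (κ - κ')) atTop atTop :=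
    (tendsto_rpow_atTop (by linarith)).comp hlog
  have h2 : Tendsto (fun N : ℕ => Real.log N ^ κ) atTop atTop := (tendsto_rpow_atTop hκ).comp hlog
  filter_upwards [h1.eventually_ge_atTop (2 * |K|), h2.eventually_ge_atTop (2 * |K|),
    hlog.eventually_gt_atTop 0] with N e1 e2 e3
  have e4 : Real.log N ^ κ = Real.log N ^ (κ - κ') * Real.log N ^ κ' := by
    rw [← Real.rpow_add e3]
    congr 1
    ring
  have e5 : 0 ≤ Real.log N ^ κ' := Real.rpow_nonneg e3.le _
  have e6 : 2 * |K| * Real.log N ^ κ' ≤ Real.log N ^ κ := by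
    rw [e4]
    exact mul_le_mul_of_nonneg_right e1 e5
  have e7 : K * Real.log N ^ κ' ≤ |K| * Real.log N ^ κ' :=
    mul_le_mul_of_nonneg_right (le_abs_self K) e5
  have e8 := le_abs_self K
  linarith

/-- In the class of the homogeneous sets `g` forces unbounded representations if and only if
`√N / g(N) > exp ((log N) ^ κ)` for arbitrarily large `N`, for every `κ < 1`; with the exact
exponents `1 - 1 / m` for `2 ^ m` representations (up to a factor `4`). -/
theorem result :
    (∀ g : ℕ → ℝ, (∀ A : Set ℕ, Homogeneous A → Dense g A → Unbounded A) ↔ Fast g) ∧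
    (∀ A : Set ℕ, Homogeneous A → ∃ K : ℝ, 0 < K ∧ ∀ m : ℕ, 1 ≤ m → ∀ N : ℕ, 2 ≤ N →
      K * Real.log N ^ (1 - 1 / (m : ℝ)) ≤ Real.log (count A N) → ∃ n ≤ 4 * N, 2 ^ m ≤ rep A n) ∧
    (∀ m : ℕ, 2 ≤ m → ∃ A : Set ℕ, Homogeneous A ∧ (∀ n, rep A n ≤ 2 ^ (m + 2)) ∧
      ∃ c : ℝ, 0 < c ∧ ∀ᶠ N : ℕ in atTop,
        c * Real.log N ^ (1 - 1 / (m : ℝ)) ≤ Real.log (count A N)) := by
  refine ⟨fun g => ⟨fun h => ?_, fun hg A hA hd => ?_⟩, fun A hA => many hA,
    fun m hm => few hm⟩
  · by_contra hg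
    unfold Fast at hg
    push Not at hg
    obtain ⟨κ, hκ, hev⟩ := hg
    obtain ⟨m, hm⟩ := exists_nat_gt (1 / (1 - κ))
    obtain ⟨m', hm'⟩ : ∃ m', m' = m + 2 := ⟨_, rfl⟩
    have h1 : κ < 1 - 1 / (m' : ℝ) := by
      have h2 : 0 < 1 - κ := by linarith
      have h3 : 1 / (1 - κ) < (m' : ℝ) := by
        rw [hm']
        push_cast
        linarith
      have h4 : 1 / (m' : ℝ) < 1 - κ := by
        rw [one_div_lt (by
          have : 0 < 1 / (1 - κ) := by positivity
          linarith) h2]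
        exact h3
      linarith
    have hm2 : (2 : ℝ) ≤ m' := by
      rw [hm']
      push_cast
      have : (0 : ℝ) ≤ m := Nat.cast_nonneg _
      linarith
    have hpos : 0 < 1 - 1 / (m' : ℝ) := by
      rw [sub_pos, div_lt_one (by linarith)]
      linarith
    obtain ⟨A, hA, hrep, c, hc, hdA⟩ := few (m := m') (by omega)
    have hD : Dense g A := by
      refine ⟨1, one_pos, ?_⟩
      filter_upwards [hev, hdA, tend (1 - 1 / (m' : ℝ)) κ (1 / c) h1 hpos, eventually_ge_atTop 2]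
        with N e1 e2 e3 e4
      rw [one_mul]
      have hlN : 0 < Real.log N := Real.log_pos (by exact_mod_cast e4)
      have e5 : Real.log N ^ κ ≤ Real.log (count A N) := by
        refine le_trans ?_ e2
        have e6 : 0 < 1 / c := by positivity
        have e7 : 1 / c * Real.log N ^ κ ≤ Real.log N ^ (1 - 1 / (m' : ℝ)) := by linarith
        have e8 := mul_le_mul_of_nonneg_left e7 hc.le
        rw [← mul_assoc, mul_one_div_cancel hc.ne', one_mul] at e8
        exact e8
      have e6 : 0 < Real.log (count A N) := lt_of_lt_of_le (Real.rpow_pos_of_pos hlN κ) e5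
      have e7 : (0 : ℝ) < count A N := by
        rcases Nat.eq_zero_or_pos (count A N) with h0 | h0
        · rw [h0] at e6
          simp at e6
        · exact_mod_cast h0
      calc Real.sqrt N / g N ≤ Real.exp (Real.log N ^ κ) := e1
        _ ≤ Real.exp (Real.log (count A N)) := Real.exp_le_exp.2 e5
        _ = count A N := Real.exp_log e7
    obtain ⟨n, hn⟩ := h A hA hD (2 ^ (m' + 2) + 1)
    have := hrep n
    omega
  · intro M
    obtain ⟨C, hC, hev⟩ := hd
    obtain ⟨m, hm⟩ : ∃ m, m = M + 1 := ⟨_, rfl⟩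
    obtain ⟨K, hK, hmany⟩ := many hA
    have hm1 : (1 : ℝ) ≤ m := by exact_mod_cast (by omega : 1 ≤ m)
    have hκ1 : 1 - 1 / (m : ℝ) < 1 - 1 / (2 * m) := by
      have : 1 / (2 * (m : ℝ)) < 1 / m := by
        rw [div_lt_div_iff₀ (by positivity) (by positivity)]
        linarith
      linarith
    have hκ2 : 0 < 1 - 1 / (2 * (m : ℝ)) := by
      rw [sub_pos, div_lt_one (by positivity)]
      linarith
    have hκ3 : 1 - 1 / (2 * (m : ℝ)) < 1 := by
      have : 0 < 1 / (2 * (m : ℝ)) := by positivity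
      linarith
    obtain ⟨N, hN, hN1, hN2, hN3⟩ := ((hg _ hκ3).and_eventually (hev.and
      ((tend (1 - 1 / (2 * (m : ℝ))) (1 - 1 / (m : ℝ)) (K + |Real.log C|) hκ1 hκ2).and
        (eventually_ge_atTop 2)))).exists
    have hlN : 0 < Real.log N := Real.log_pos (by exact_mod_cast hN3)
    have e1 : Real.exp (Real.log N ^ (1 - 1 / (2 * (m : ℝ)))) < C * count A N := hN.trans_le hN1
    have e2 : 0 < C * (count A N : ℝ) := (Real.exp_pos _).trans e1
    have e3 : (0 : ℝ) < count A N := (mul_pos_iff_of_pos_left hC).1 e2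
    have e4 : Real.log N ^ (1 - 1 / (2 * (m : ℝ))) ≤ Real.log C + Real.log (count A N) := by
      rw [← Real.log_mul hC.ne' e3.ne', Real.le_log_iff_exp_le e2]
      exact e1.le
    have e5 : 0 ≤ Real.log N ^ (1 - 1 / (m : ℝ)) := Real.rpow_nonneg hlN.le _
    have e6 : Real.log C ≤ |Real.log C| := le_abs_self _
    have e7 : 0 ≤ |Real.log C| := abs_nonneg _
    obtain ⟨n, -, hn⟩ := hmany m (by omega) N hN3 (by nlinarith)
    refine ⟨n, ?_⟩
    have h1 : M < 2 ^ m := by
      rw [hm]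
      exact (Nat.lt_two_pow_self).trans (Nat.pow_lt_pow_right (by norm_num) (Nat.lt_succ_self M))
    omega

end Pool.Agent.Results.MP_491344_nt.HomogeneousThreshold
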